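import Pool.Statements.S10143
-- import your own Pool.Agent.* helpers here

set_option autoImplicit false
open Classical
open Pool Pool.MP_913d4e_co

namespace Pool.Agent.S10143

/-! ### The convex hull of a compact set of `ℝ^m` is compact -/

lemma isCompact_convexHull_of_isCompact {m : ℕ} {s : Set (Fin m → ℝ)} (hs : IsCompact s) :
    IsCompact (convexHull ℝ s) := by
  rcases s.eq_empty_or_nonempty with rfl | ⟨s0, hs0⟩
  · simp
  have hK : IsCompact ((stdSimplex ℝ (Fin (m + 1))) ×ˢ
      (Set.univ.pi fun _ : Fin (m + 1) => s)) :=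
    (isCompact_stdSimplex ℝ _).prod (isCompact_univ_pi fun _ => hs)
  have hcont : Continuous (fun p : (Fin (m + 1) → ℝ) × (Fin (m + 1) → Fin m → ℝ) =>
      ∑ i, p.1 i • p.2 i) := by fun_prop
  have himg : convexHull ℝ s = (fun p : (Fin (m + 1) → ℝ) × (Fin (m + 1) → Fin m → ℝ) =>
      ∑ i, p.1 i • p.2 i) '' ((stdSimplex ℝ (Fin (m + 1))) ×ˢ
      (Set.univ.pi fun _ : Fin (m + 1) => s)) := by
    apply Set.Subset.antisymm
    · intro x hx
      obtain ⟨ι, hι, z, w, hz, haff, hw, hw1, hx'⟩ := eq_pos_convex_span_of_mem_convexHull hx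
      have hcard : Fintype.card ι ≤ Fintype.card (Fin (m + 1)) := by
        have h1 := haff.card_le_finrank_succ
        have h2 := Submodule.finrank_le (vectorSpan ℝ (Set.range z))
        simp only [Module.finrank_fintype_fun_eq_card, Fintype.card_fin] at h2
        simp only [Fintype.card_fin]
        omega
      obtain ⟨g⟩ := Function.Embedding.nonempty_of_card_le hcard
      refine ⟨(Function.extend g w 0, Function.extend g z (fun _ => s0)), ⟨⟨?_, ?_⟩, ?_⟩, ?_⟩
      · intro j
        by_cases hj : ∃ i, g i = j
        · obtain ⟨i, rfl⟩ := hj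
          simp only [g.injective.extend_apply]
          exact (hw i).le
        · simp [Function.extend_apply' _ _ _ hj]
      · rw [← hw1]
        symm
        apply Fintype.sum_of_injective g g.injective
        · intro j hj
          rw [Set.mem_range] at hj
          simp [Function.extend_apply' _ _ _ hj]
        · intro i
          simp only [g.injective.extend_apply]
      · intro j _
        by_cases hj : ∃ i, g i = j
        · obtain ⟨i, rfl⟩ := hj
          simp only [g.injective.extend_apply]
          exact hz ⟨i, rfl⟩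
        · simp only [Function.extend_apply' _ _ _ hj]
          exact hs0
      · rw [← hx']
        symm
        apply Fintype.sum_of_injective g g.injective
        · intro j hj
          rw [Set.mem_range] at hj
          simp [Function.extend_apply' _ _ _ hj]
        · intro i
          simp only [g.injective.extend_apply]
    · rintro x ⟨⟨w, z⟩, ⟨⟨hw0, hw1⟩, hz⟩, rfl⟩
      exact (convex_convexHull ℝ s).sum_mem (fun i _ => hw0 i) hw1
        (fun i _ => subset_convexHull ℝ s (hz i (Set.mem_univ i)))
  rw [himg]
  exact hK.image hcont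

/-! ### The clique polynomial and its maximum over the simplex -/

section Lagrangian

variable {V : Type} [Fintype V]

/-- the weight `g |K|` of a clique `K`, and `0` for the other sets -/
noncomputable def wt (G : SimpleGraph V) (g : ℕ → ℝ) (K : Finset V) : ℝ :=
  if G.IsClique (K : Set V) then g K.card else 0

/-- the clique polynomial -/
noncomputable def F (G : SimpleGraph V) (g : ℕ → ℝ) (x : V → ℝ) : ℝ :=
  ∑ K : Finset V, wt G g K * ∏ v ∈ K, x v

lemma continuous_F (G : SimpleGraph V) (g : ℕ → ℝ) : Continuous (F G g) := by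
  unfold F
  fun_prop

lemma quad (G : SimpleGraph V) (g : ℕ → ℝ) (x : V → ℝ) (u v : V) (huv : u ≠ v) :
    ∃ A Bu Bv C : ℝ,
      (∀ a b : ℝ, F G g (Function.update (Function.update x u a) v b)
        = A + Bu * a + Bv * b + C * a * b) ∧
      (¬ G.Adj u v → C = 0) ∧
      ((∀ p q, x p ≠ 0 → x q ≠ 0 → p ≠ q → G.Adj p q) → x u ≠ 0 → x v ≠ 0 → Bu = Bv) := by
  set S : Finset V := (Finset.univ.erase u).erase v with hS
  have hvS : v ∉ S := by simp [hS]
  have huS : u ∉ insert v S := by simp [hS, huv]
  have huS' : u ∉ S := fun h => huS (Finset.mem_insert_of_mem h)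
  have huniv : (Finset.univ : Finset V) = insert u (insert v S) := by
    ext p
    simp only [hS, Finset.mem_univ, Finset.mem_insert, Finset.mem_erase, true_iff]
    tauto
  have hsplit : ∀ y : V → ℝ, F G g y =
      ∑ K ∈ S.powerset, (wt G g K * ∏ p ∈ K, y p
        + wt G g (insert v K) * (y v * ∏ p ∈ K, y p)
        + wt G g (insert u K) * (y u * ∏ p ∈ K, y p)
        + wt G g (insert u (insert v K)) * (y u * (y v * ∏ p ∈ K, y p))) := by
    intro y
    unfold F
    rw [← Finset.powerset_univ, huniv, Finset.sum_powerset_insert huS,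
      Finset.sum_powerset_insert hvS, Finset.sum_powerset_insert hvS,
      ← Finset.sum_add_distrib, ← Finset.sum_add_distrib, ← Finset.sum_add_distrib]
    apply Finset.sum_congr rfl
    intro K hK
    rw [Finset.mem_powerset] at hK
    have h1 : v ∉ K := fun h => hvS (hK h)
    have h2 : u ∉ K := fun h => huS' (hK h)
    have h3 : u ∉ insert v K := by
      rw [Finset.mem_insert]; rintro (h | h)
      · exact huv h
      · exact h2 h
    rw [Finset.prod_insert h1, Finset.prod_insert h2, Finset.prod_insert h3,
      Finset.prod_insert h1]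
    ring
  refine ⟨∑ K ∈ S.powerset, wt G g K * ∏ p ∈ K, x p,
    ∑ K ∈ S.powerset, wt G g (insert u K) * ∏ p ∈ K, x p,
    ∑ K ∈ S.powerset, wt G g (insert v K) * ∏ p ∈ K, x p,
    ∑ K ∈ S.powerset, wt G g (insert u (insert v K)) * ∏ p ∈ K, x p, ?_, ?_, ?_⟩
  · intro a b
    rw [hsplit, Finset.sum_mul, Finset.sum_mul, Finset.sum_mul, Finset.sum_mul,
      ← Finset.sum_add_distrib, ← Finset.sum_add_distrib, ← Finset.sum_add_distrib]
    apply Finset.sum_congr rfl
    intro K hK
    rw [Finset.mem_powerset] at hK
    have h1 : ∏ p ∈ K, Function.update (Function.update x u a) v b p = ∏ p ∈ K, x p := by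
      apply Finset.prod_congr rfl
      intro p hp
      have hpv : p ≠ v := by rintro rfl; exact hvS (hK hp)
      have hpu : p ≠ u := by rintro rfl; exact huS' (hK hp)
      rw [Function.update_of_ne hpv, Function.update_of_ne hpu]
    rw [h1, Function.update_self, Function.update_of_ne huv, Function.update_self]
    ring
  · intro hadj
    apply Finset.sum_eq_zero
    intro K _
    have : wt G g (insert u (insert v K)) = 0 := by
      unfold wt
      rw [if_neg]
      intro hcl
      exact hadj (hcl (by simp) (by simp) huv)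
    rw [this, zero_mul]
  · intro hcl hu hv
    apply Finset.sum_congr rfl
    intro K hK
    rw [Finset.mem_powerset] at hK
    by_cases hz : ∃ p ∈ K, x p = 0
    · obtain ⟨p, hp, hp0⟩ := hz
      rw [Finset.prod_eq_zero hp hp0, mul_zero, mul_zero]
    · push Not at hz
      have h1 : v ∉ K := fun h => hvS (hK h)
      have h2 : u ∉ K := fun h => huS' (hK h)
      have e1 : wt G g (insert u K) = g (K.card + 1) := by
        unfold wt
        rw [if_pos, Finset.card_insert_of_notMem h2]
        intro p hp q hq hpq
        rw [Finset.mem_coe, Finset.mem_insert] at hp hq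
        apply hcl p q _ _ hpq
        · rcases hp with rfl | hp
          · exact hu
          · exact hz p hp
        · rcases hq with rfl | hq
          · exact hu
          · exact hz q hq
      have e2 : wt G g (insert v K) = g (K.card + 1) := by
        unfold wt
        rw [if_pos, Finset.card_insert_of_notMem h1]
        intro p hp q hq hpq
        rw [Finset.mem_coe, Finset.mem_insert] at hp hq
        apply hcl p q _ _ hpq
        · rcases hp with rfl | hp
          · exact hv
          · exact hz p hp
        · rcases hq with rfl | hq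
          · exact hv
          · exact hz q hq
      rw [e1, e2]

/-- the value of the clique polynomial at the balanced complete `(k+1)`-partite point -/
noncomputable def bal (g : ℕ → ℝ) (k : ℕ) : ℝ :=
  ∑ j ∈ Finset.range (k + 2), ((k + 1).choose j : ℝ) * (g j * (1 / ((k : ℝ) + 1)) ^ j)

lemma update_mem_stdSimplex {x : V → ℝ} (hx : x ∈ stdSimplex ℝ V) {u v : V} (huv : u ≠ v)
    {a b : ℝ} (ha : 0 ≤ a) (hb : 0 ≤ b) (hab : a + b = x u + x v) :
    Function.update (Function.update x u a) v b ∈ stdSimplex ℝ V := by
  constructor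
  · intro p
    by_cases hpv : p = v
    · subst hpv; rw [Function.update_self]; exact hb
    · rw [Function.update_of_ne hpv]
      by_cases hpu : p = u
      · subst hpu; rw [Function.update_self]; exact ha
      · rw [Function.update_of_ne hpu]; exact hx.1 p
  · have h1 : ∀ y : V → ℝ, ∑ p, y p = y v + (y u + ∑ p ∈ (Finset.univ.erase v).erase u, y p) := by
      intro y
      rw [← Finset.add_sum_erase Finset.univ y (Finset.mem_univ v),
        ← Finset.add_sum_erase (Finset.univ.erase v) y
          (Finset.mem_erase.2 ⟨huv, Finset.mem_univ u⟩)]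
    have h2 := hx.2
    rw [h1] at h2 ⊢
    rw [Function.update_self, Function.update_of_ne huv, Function.update_self]
    have h3 : ∑ p ∈ (Finset.univ.erase v).erase u,
        Function.update (Function.update x u a) v b p =
        ∑ p ∈ (Finset.univ.erase v).erase u, x p := by
      apply Finset.sum_congr rfl
      intro p hp
      simp only [Finset.mem_erase, Finset.mem_univ, and_true] at hp
      rw [Function.update_of_ne hp.2, Function.update_of_ne hp.1]
    rw [h3]
    linarith

lemma max_eq_bal (G : SimpleGraph V) (g : ℕ → ℝ) : ∀ n : ℕ, ∀ x ∈ stdSimplex ℝ V,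
    (∀ y ∈ stdSimplex ℝ V, F G g y ≤ F G g x) →
    (Finset.univ.filter fun p => x p ≠ 0).card = n → ∃ k : ℕ, F G g x = bal g k := by
  intro n
  induction n using Nat.strong_induction_on with
  | _ n ih =>
  intro x hx hmax hn
  have hself : ∀ u v : V, u ≠ v → Function.update (Function.update x u (x u)) v (x v) = x := by
    intro u v _
    rw [Function.update_eq_self, Function.update_eq_self]
  by_cases hC : ∃ u v : V, u ≠ v ∧ x u ≠ 0 ∧ x v ≠ 0 ∧ ∃ A Bu Bv : ℝ,
      ∀ a b : ℝ, F G g (Function.update (Function.update x u a) v b) = A + Bu * a + Bv * b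
  · obtain ⟨u, v, huv, hu, hv, A, Bu, Bv, hF⟩ := hC
    have hu0 : 0 < x u := lt_of_le_of_ne (hx.1 u) (Ne.symm hu)
    have hv0 : 0 < x v := lt_of_le_of_ne (hx.1 v) (Ne.symm hv)
    have h0 := hF (x u) (x v)
    rw [hself u v huv] at h0
    have m1 := hmax _ (update_mem_stdSimplex hx huv (a := x u + x v) (b := 0)
      (by linarith) le_rfl (by ring))
    have m2 := hmax _ (update_mem_stdSimplex hx huv (a := 0) (b := x u + x v)
      le_rfl (by linarith) (by ring))
    rw [hF, h0] at m1 m2
    have k1 : (Bu - Bv) * x v ≤ 0 := by nlinarith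
    have k2 : (Bv - Bu) * x u ≤ 0 := by nlinarith
    have k3 : Bu = Bv := by
      apply le_antisymm
      · by_contra h
        push Not at h
        nlinarith [mul_pos (sub_pos.2 h) hv0]
      · by_contra h
        push Not at h
        nlinarith [mul_pos (sub_pos.2 h) hu0]
    set y := Function.update (Function.update x u (x u + x v)) v 0 with hy
    have hyF : F G g y = F G g x := by
      rw [hy, hF, h0, k3]; ring
    have hyS : y ∈ stdSimplex ℝ V :=
      update_mem_stdSimplex hx huv (by linarith) le_rfl (by ring)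
    have hcard : (Finset.univ.filter fun p => y p ≠ 0).card < n := by
      rw [← hn]
      apply Finset.card_lt_card
      constructor
      · intro p hp
        simp only [Finset.mem_filter, Finset.mem_univ, true_and] at hp ⊢
        by_cases hpv : p = v
        · subst hpv; exact hv
        · by_cases hpu : p = u
          · subst hpu; exact hu
          · rw [hy, Function.update_of_ne hpv, Function.update_of_ne hpu] at hp
            exact hp
      · intro hsub
        have := hsub (show v ∈ Finset.univ.filter fun p => x p ≠ 0 by simp [hv])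
        simp [hy] at this
    obtain ⟨k, hk⟩ := ih _ hcard y hyS (fun z hz => by rw [hyF]; exact hmax z hz) rfl
    exact ⟨k, by rw [← hyF, hk]⟩
  · push Not at hC
    set T := Finset.univ.filter (fun p => x p ≠ 0) with hT
    have hTmem : ∀ p, p ∈ T ↔ x p ≠ 0 := by intro p; simp [hT]
    -- the support is a clique
    have hclique : ∀ p q, x p ≠ 0 → x q ≠ 0 → p ≠ q → G.Adj p q := by
      intro p q hp hq hpq
      by_contra hadj
      obtain ⟨A, Bu, Bv, C, h1, h2, -⟩ := quad G g x p q hpq
      obtain ⟨a, b, hab⟩ := hC p q hpq hp hq A Bu Bv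
      apply hab
      rw [h1, h2 hadj]
      ring
    have heq : ∀ p q, x p ≠ 0 → x q ≠ 0 → x p = x q := by
      intro p q hp hq
      by_cases hpq : p = q
      · rw [hpq]
      obtain ⟨A, Bu, Bv, C, h1, -, h3⟩ := quad G g x p q hpq
      have hB := h3 hclique hp hq
      have hp0 : 0 < x p := lt_of_le_of_ne (hx.1 p) (Ne.symm hp)
      have hq0 : 0 < x q := lt_of_le_of_ne (hx.1 q) (Ne.symm hq)
      have h0 := h1 (x p) (x q)
      rw [hself p q hpq] at h0
      have m1 := hmax _ (update_mem_stdSimplex hx hpq (a := x p + x q) (b := 0)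
        (by linarith) le_rfl (by ring))
      have m2 := hmax _ (update_mem_stdSimplex hx hpq (a := (x p + x q) / 2)
        (b := (x p + x q) / 2) (by linarith) (by linarith) (by ring))
      rw [h1, h0, hB] at m1 m2
      have hCpos : 0 ≤ C := by
        by_contra h
        push Not at h
        nlinarith [mul_pos (neg_pos.2 h) (mul_pos hp0 hq0)]
      have hCne : C ≠ 0 := by
        intro hC0
        obtain ⟨a, b, hab⟩ := hC p q hpq hp hq A Bu Bv
        apply hab
        rw [h1, hC0]
        ring
      have hC' : 0 < C := lt_of_le_of_ne hCpos (Ne.symm hCne)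
      have hsq : C * (x p - x q) ^ 2 ≤ 0 := by nlinarith
      have hsq' : (x p - x q) ^ 2 ≤ 0 := by
        by_contra h
        push Not at h
        nlinarith [mul_pos hC' h]
      have : x p - x q = 0 := by
        have := sq_nonneg (x p - x q)
        have h' : (x p - x q) ^ 2 = 0 := le_antisymm hsq' this
        exact pow_eq_zero_iff (two_ne_zero) |>.1 h'
      linarith
    have hTne : T.Nonempty := by
      by_contra hemp
      rw [Finset.not_nonempty_iff_eq_empty] at hemp
      have : ∑ p, x p = 0 := by
        apply Finset.sum_eq_zero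
        intro p _
        by_contra hp
        have := (hTmem p).2 hp
        rw [hemp] at this
        simp at this
      rw [hx.2] at this
      exact one_ne_zero this
    obtain ⟨k, hk⟩ : ∃ k, T.card = k + 1 := ⟨T.card - 1, by
      have := hTne.card_pos; omega⟩
    have hval : ∀ p ∈ T, x p = 1 / ((k : ℝ) + 1) := by
      intro p hp
      have hsum : ∑ q, x q = ∑ q ∈ T, x q := by
        symm
        apply Finset.sum_subset (Finset.subset_univ T)
        intro q _ hq
        by_contra h
        exact hq ((hTmem q).2 h)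
      have hsum2 : ∑ q ∈ T, x q = (T.card : ℝ) * x p := by
        rw [Finset.sum_congr rfl (fun q hq => heq q p ((hTmem q).1 hq) ((hTmem p).1 hp)),
          Finset.sum_const, nsmul_eq_mul]
      have h1 := hx.2
      rw [hsum, hsum2, hk] at h1
      push_cast at h1
      have : (0 : ℝ) < (k : ℝ) + 1 := by positivity
      field_simp
      linarith
    refine ⟨k, ?_⟩
    unfold F bal
    have h1 : ∑ K : Finset V, wt G g K * ∏ v ∈ K, x v =
        ∑ K ∈ T.powerset, g K.card * (1 / ((k : ℝ) + 1)) ^ K.card := by
      rw [← Finset.sum_subset (Finset.subset_univ T.powerset)]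
      · apply Finset.sum_congr rfl
        intro K hK
        rw [Finset.mem_powerset] at hK
        have : wt G g K = g K.card := by
          unfold wt
          rw [if_pos]
          intro p hp q hq hpq
          exact hclique p q ((hTmem p).1 (hK hp)) ((hTmem q).1 (hK hq)) hpq
        rw [this, Finset.prod_congr rfl (fun p hp => hval p (hK hp)), Finset.prod_const]
      · intro K _ hK
        rw [Finset.mem_powerset] at hK
        obtain ⟨p, hp, hpT⟩ := Finset.not_subset.1 hK
        rw [Finset.prod_eq_zero hp (by by_contra h; exact hpT ((hTmem p).2 h)), mul_zero]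
    rw [h1, Finset.sum_powerset_apply_card (fun j => g j * (1 / ((k : ℝ) + 1)) ^ j), hk]
    apply Finset.sum_congr rfl
    intro j _
    rw [nsmul_eq_mul]

lemma le_bal [Nonempty V] (G : SimpleGraph V) (g : ℕ → ℝ) (x : V → ℝ)
    (hx : x ∈ stdSimplex ℝ V) : ∃ k : ℕ, F G g x ≤ bal g k := by
  obtain ⟨y, hy, hmax⟩ := (isCompact_stdSimplex ℝ V).exists_isMaxOn ⟨x, hx⟩
    (continuous_F G g).continuousOn
  obtain ⟨k, hk⟩ := max_eq_bal G g _ y hy (fun z hz => hmax hz) rfl
  exact ⟨k, by rw [← hk]; exact hmax hx⟩

end Lagrangian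

/-! ### The points of the balanced complete multipartite graphs -/

/-- the coordinates of the points -/
noncomputable def s (e k : ℕ) : ℝ := ∏ j ∈ Finset.Ico 1 e, (1 - (j : ℝ) / ((k : ℝ) + 1))

lemma s_eq (k : ℕ) : ∀ e : ℕ, 0 < e →
    s e k = ((k + 1).descFactorial e : ℝ) * (1 / ((k : ℝ) + 1)) ^ e := by
  intro e he
  have hk : (0 : ℝ) < (k : ℝ) + 1 := by positivity
  induction e with
  | zero => omega
  | succ e ih =>
    rcases Nat.eq_zero_or_pos e with rfl | he'
    · simp only [s, zero_add, Finset.Ico_self, Finset.prod_empty, Nat.descFactorial_one,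
        Nat.cast_add, Nat.cast_one, pow_one]
      field_simp
    · have ih' := ih he'
      have h1 : s (e + 1) k = s e k * (1 - (e : ℝ) / ((k : ℝ) + 1)) := by
        unfold s
        rw [Finset.prod_Ico_succ_top (by omega)]
      rw [h1, ih', Nat.descFactorial_succ, pow_succ]
      by_cases hek : e ≤ k + 1
      · push_cast [Nat.cast_sub hek]
        field_simp
      · push Not at hek
        have : (k + 1).descFactorial e = 0 := Nat.descFactorial_eq_zero_iff_lt.2 hek
        rw [this]
        simp

lemma s_le_one (e k : ℕ) (he : 0 < e) (hk : e ≤ k + 1) : 0 ≤ s e k ∧ s e k ≤ 1 := by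
  have hk0 : (0 : ℝ) < (k : ℝ) + 1 := by positivity
  have h : ∀ j ∈ Finset.Ico 1 e, 0 ≤ (1 - (j : ℝ) / ((k : ℝ) + 1)) ∧
      (1 - (j : ℝ) / ((k : ℝ) + 1)) ≤ 1 := by
    intro j hj
    rw [Finset.mem_Ico] at hj
    have h1 : (j : ℝ) ≤ (k : ℝ) + 1 := by
      have : j ≤ k + 1 := by omega
      exact_mod_cast this
    constructor
    · rw [sub_nonneg, div_le_one hk0]; exact h1
    · have : 0 ≤ (j : ℝ) / ((k : ℝ) + 1) := by positivity
      linarith
  exact ⟨Finset.prod_nonneg (fun j hj => (h j hj).1),
    Finset.prod_le_one (fun j hj => (h j hj).1) (fun j hj => (h j hj).2)⟩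

lemma s_tendsto (e : ℕ) : Filter.Tendsto (fun k : ℕ => s e k) Filter.atTop (nhds 1) := by
  have h : Filter.Tendsto (fun k : ℕ => ∏ j ∈ Finset.Ico 1 e, (1 - (j : ℝ) / ((k : ℝ) + 1)))
      Filter.atTop (nhds (∏ _j ∈ Finset.Ico 1 e, (1 - (0 : ℝ)))) := by
    apply tendsto_finsetProd
    intro j _
    apply Filter.Tendsto.sub tendsto_const_nhds
    have := tendsto_one_div_add_atTop_nhds_zero_nat (𝕜 := ℝ)
    have h2 := this.const_mul (j : ℝ)
    simp only [mul_zero, mul_one_div] at h2
    exact h2
  simpa [s] using h

/-! ### Counting maps that are injective on a set -/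

lemma card_injOn {α : Type} [Fintype α] (q : ℕ) (T : Finset α) :
    (Finset.univ.filter fun φ : α → Fin q => Set.InjOn φ (T : Set α)).card =
      q.descFactorial T.card * q ^ (Fintype.card α - T.card) := by
  have e : {φ : α → Fin q // Set.InjOn φ (T : Set α)} ≃
      ({f : ({a // a ∈ T} → Fin q) // Function.Injective f} × ({a // a ∉ T} → Fin q)) :=
    { toFun := fun φ => (⟨fun t => φ.1 t.1, fun a b hab => Subtype.ext (φ.2 a.2 b.2 hab)⟩,
        fun a => φ.1 a.1)
      invFun := fun f => ⟨fun a => if h : a ∈ T then f.1.1 ⟨a, h⟩ else f.2 ⟨a, h⟩, by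
        intro a ha b hb hab
        rw [Finset.mem_coe] at ha hb
        simp only [ha, hb, dif_pos] at hab
        exact congrArg Subtype.val (f.1.2 hab)⟩
      left_inv := by
        rintro ⟨φ, hφ⟩
        ext a
        by_cases h : a ∈ T <;> simp [h]
      right_inv := by
        rintro ⟨⟨f, hf⟩, g⟩
        ext a
        · simp [a.2]
        · simp [a.2] }
  rw [← Fintype.card_subtype, Fintype.card_congr e, Fintype.card_prod,
    Fintype.card_congr (Equiv.subtypeInjectiveEquivEmbedding _ _), Fintype.card_embedding_eq,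
    Fintype.card_fin, Fintype.card_coe, Fintype.card_fun, Fintype.card_fin,
    Fintype.card_subtype_compl, Fintype.card_coe]

/-- the complete multipartite graph given by a map to the parts -/
def multi {N q : ℕ} (φ : Fin N → Fin q) : SimpleGraph (Fin N) where
  Adj a b := φ a ≠ φ b
  symm := ⟨fun _ _ h => Ne.symm h⟩
  loopless := ⟨fun _ h => h rfl⟩

lemma isClique_multi {N q : ℕ} (φ : Fin N → Fin q) (T : Finset (Fin N)) :
    (multi φ).IsClique (T : Set (Fin N)) ↔ Set.InjOn φ (T : Set (Fin N)) := by
  constructor
  · intro h a ha b hb hab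
    by_contra hne
    exact h ha hb hne hab
  · intro h a ha b hb hne hab
    exact hne (h ha hb hab)

lemma sum_cliques (N q e : ℕ) :
    ∑ φ : Fin N → Fin q, ((multi φ).cliqueFinset e).card =
      N.choose e * (q.descFactorial e * q ^ (N - e)) := by
  have h1 : ∀ φ : Fin N → Fin q, ((multi φ).cliqueFinset e).card =
      ∑ T ∈ (Finset.univ : Finset (Fin N)).powersetCard e,
        if Set.InjOn φ (T : Set (Fin N)) then 1 else 0 := by
    intro φ
    rw [← Finset.card_filter]
    congr 1
    ext T
    rw [SimpleGraph.mem_cliqueFinset_iff, SimpleGraph.isNClique_iff, isClique_multi,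
      Finset.mem_filter, Finset.mem_powersetCard]
    simp only [Finset.subset_univ, true_and]
    tauto
  rw [Finset.sum_congr rfl (fun φ _ => h1 φ), Finset.sum_comm]
  have h2 : ∀ T ∈ (Finset.univ : Finset (Fin N)).powersetCard e,
      (∑ φ : Fin N → Fin q, if Set.InjOn φ (T : Set (Fin N)) then 1 else 0) =
        q.descFactorial e * q ^ (N - e) := by
    intro T hT
    rw [Finset.mem_powersetCard] at hT
    have h3 := card_injOn q T
    rw [hT.2, Fintype.card_fin] at h3
    rw [← Finset.card_filter, ← h3]
    congr!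
  rw [Finset.sum_congr rfl h2, Finset.sum_const, Finset.card_powersetCard, Finset.card_univ,
    Fintype.card_fin, smul_eq_mul]

/-- the vector of clique densities -/
noncomputable def vec {m : ℕ} (e : Fin m → ℕ) {N : ℕ} (G : SimpleGraph (Fin N)) : Fin m → ℝ :=
  fun i => ((G.cliqueFinset (e i)).card : ℝ) / ((Nat.choose N (e i) : ℕ) : ℝ)

lemma s_mem {m : ℕ} (e : Fin m → ℕ) (he : ∀ i, 0 < e i) (N : ℕ) (hN : ∀ i, e i ≤ N) (k : ℕ) :
    (fun i => s (e i) k) ∈ convexHull ℝ {x : Fin m → ℝ | ∃ G : SimpleGraph (Fin N), x = vec e G} := by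
  have hk0 : (0 : ℝ) < (k : ℝ) + 1 := by positivity
  have hsum : (fun i => s (e i) k) =
      ∑ φ : Fin N → Fin (k + 1), (1 / ((k : ℝ) + 1) ^ N) • vec e (multi φ) := by
    ext i
    rw [Finset.sum_apply]
    simp only [Pi.smul_apply, smul_eq_mul, vec]
    rw [← Finset.mul_sum, ← Finset.sum_div, ← Nat.cast_sum, sum_cliques, s_eq k (e i) (he i)]
    have hc : (0 : ℝ) < (N.choose (e i) : ℝ) := by
      exact_mod_cast Nat.choose_pos (hN i)
    have hp : ((k : ℝ) + 1) ^ N = ((k : ℝ) + 1) ^ (e i) * ((k : ℝ) + 1) ^ (N - e i) := by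
      rw [← pow_add]; congr 1; have := hN i; omega
    push_cast
    rw [hp, one_div, one_div, inv_pow]
    field_simp
  rw [hsum]
  apply (convex_convexHull ℝ _).sum_mem
  · intro φ _; positivity
  · rw [Finset.sum_const, Finset.card_univ, Fintype.card_fun, Fintype.card_fin, Fintype.card_fin,
      nsmul_eq_mul]
    push_cast
    field_simp
  · intro φ _
    exact subset_convexHull ℝ _ ⟨multi φ, rfl⟩

lemma one_mem {m : ℕ} (e : Fin m → ℕ) (N : ℕ) (hN : ∀ i, e i ≤ N) :
    (1 : Fin m → ℝ) ∈ convexHull ℝ {x : Fin m → ℝ | ∃ G : SimpleGraph (Fin N), x = vec e G} := by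
  apply subset_convexHull
  refine ⟨⊤, ?_⟩
  ext i
  have h1 : ((⊤ : SimpleGraph (Fin N)).cliqueFinset (e i)) =
      (Finset.univ : Finset (Fin N)).powersetCard (e i) := by
    ext T
    rw [SimpleGraph.mem_cliqueFinset_iff, SimpleGraph.isNClique_iff, Finset.mem_powersetCard]
    simp only [Finset.subset_univ, true_and, and_iff_right_iff_imp]
    intro _ a _ b _ hab
    exact hab
  have hc : (0 : ℝ) < (N.choose (e i) : ℝ) := by
    exact_mod_cast Nat.choose_pos (hN i)
  have h2 : ((⊤ : SimpleGraph (Fin N)).cliqueFinset (e i)).card = N.choose (e i) := by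
    rw [h1, Finset.card_powersetCard, Finset.card_univ, Fintype.card_fin]
  show (1 : ℝ) = _
  unfold vec
  rw [eq_div_iff hc.ne', one_mul]
  norm_cast
  symm
  convert h2

/-! ### The linear functional -/

/-- the weights of the clique polynomial given by a linear functional -/
noncomputable def gg {m : ℕ} (e : Fin m → ℕ) (c : Fin m → ℝ) (j : ℕ) : ℝ :=
  ∑ i, c i * (if j = e i then ((e i).factorial : ℝ) else 0)

lemma bal_gg {m : ℕ} (e : Fin m → ℕ) (he : ∀ i, 0 < e i) (c : Fin m → ℝ) (k : ℕ) :
    bal (gg e c) k = ∑ i, c i * s (e i) k := by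
  unfold bal gg
  simp only [Finset.sum_mul, Finset.mul_sum]
  rw [Finset.sum_comm]
  apply Finset.sum_congr rfl
  intro i _
  rw [s_eq k (e i) (he i)]
  by_cases hi : e i ∈ Finset.range (k + 2)
  · rw [Finset.sum_eq_single_of_mem (e i) hi]
    · rw [if_pos rfl, Nat.descFactorial_eq_factorial_mul_choose]
      push_cast
      ring
    · intro j _ hj
      rw [if_neg hj]
      ring
  · rw [Finset.sum_eq_zero]
    · rw [Finset.mem_range] at hi
      have : (k + 1).descFactorial (e i) = 0 := Nat.descFactorial_eq_zero_iff_lt.2 (by omega)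
      rw [this]
      simp
    · intro j hj
      have : j ≠ e i := by rintro rfl; exact hi hj
      rw [if_neg this]
      ring

lemma F_uniform {m : ℕ} (e : Fin m → ℕ) (he : ∀ i, 0 < e i) (c : Fin m → ℝ) (k : ℕ)
    (hk : ∀ i, e i ≤ k + 1) (G : SimpleGraph (Fin (k + 1))) :
    F G (gg e c) (fun _ => 1 / ((k : ℝ) + 1)) = ∑ i, c i * (vec e G i * s (e i) k) := by
  unfold F wt gg
  simp only [Finset.prod_const]
  have h1 : ∀ K : Finset (Fin (k + 1)),
      (if G.IsClique (K : Set (Fin (k + 1))) then
        ∑ i, c i * (if K.card = e i then ((e i).factorial : ℝ) else 0) else 0) *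
        (1 / ((k : ℝ) + 1)) ^ K.card =
      ∑ i, c i * ((if K ∈ G.cliqueFinset (e i) then 1 else 0) *
        (((e i).factorial : ℝ) * (1 / ((k : ℝ) + 1)) ^ (e i))) := by
    intro K
    by_cases hcl : G.IsClique (K : Set (Fin (k + 1)))
    · rw [if_pos hcl, Finset.sum_mul]
      apply Finset.sum_congr rfl
      intro i _
      by_cases hKi : K.card = e i
      · have : K ∈ G.cliqueFinset (e i) := by
          rw [SimpleGraph.mem_cliqueFinset_iff, SimpleGraph.isNClique_iff]
          exact ⟨hcl, hKi⟩
        rw [if_pos hKi, if_pos this, hKi]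
        ring
      · have : K ∉ G.cliqueFinset (e i) := by
          rw [SimpleGraph.mem_cliqueFinset_iff, SimpleGraph.isNClique_iff]
          exact fun h => hKi h.2
        rw [if_neg hKi, if_neg this]
        ring
    · rw [if_neg hcl, zero_mul]
      symm
      apply Finset.sum_eq_zero
      intro i _
      have : K ∉ G.cliqueFinset (e i) := by
        rw [SimpleGraph.mem_cliqueFinset_iff, SimpleGraph.isNClique_iff]
        exact fun h => hcl h.1
      rw [if_neg this]
      ring
  refine (Finset.sum_congr rfl (fun K _ => by convert h1 K)).trans ?_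
  rw [Finset.sum_comm]
  apply Finset.sum_congr rfl
  intro i _
  rw [← Finset.mul_sum, ← Finset.sum_mul]
  congr 1
  have h2 : ∑ K : Finset (Fin (k + 1)), (if K ∈ G.cliqueFinset (e i) then (1 : ℝ) else 0) =
      ((G.cliqueFinset (e i)).card : ℝ) := by
    rw [Finset.sum_ite_mem, Finset.univ_inter, Finset.sum_const, nsmul_eq_mul, mul_one]
  rw [h2, s_eq k (e i) (he i), Nat.descFactorial_eq_factorial_mul_choose]
  unfold vec
  have hc : (0 : ℝ) < ((k + 1).choose (e i) : ℝ) := by
    exact_mod_cast Nat.choose_pos (hk i)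
  push_cast
  field_simp

lemma vec_bounds {m : ℕ} (e : Fin m → ℕ) {N : ℕ} (G : SimpleGraph (Fin N)) (i : Fin m) :
    0 ≤ vec e G i ∧ vec e G i ≤ 1 := by
  unfold vec
  constructor
  · positivity
  · apply div_le_one_of_le₀ _ (by positivity)
    have := G.card_cliqueFinset_le (n := e i)
    rw [Fintype.card_fin] at this
    exact_mod_cast this

lemma functional_le {m : ℕ} (e : Fin m → ℕ) (he : ∀ i, 0 < e i) (c : Fin m → ℝ) (u : ℝ)
    (hu : ∀ k : ℕ, ∑ i, c i * s (e i) k ≤ u) (k : ℕ) (hk : ∀ i, e i ≤ k + 1)
    (G : SimpleGraph (Fin (k + 1))) :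
    ∑ i, c i * vec e G i ≤ u + ∑ i, |c i| * (1 - s (e i) k) := by
  have hk0 : (0 : ℝ) < (k : ℝ) + 1 := by positivity
  obtain ⟨k', hk'⟩ := le_bal G (gg e c) (fun _ => 1 / ((k : ℝ) + 1)) (by
    constructor
    · intro _; positivity
    · rw [Finset.sum_const, Finset.card_univ, Fintype.card_fin, nsmul_eq_mul]
      push_cast
      field_simp)
  rw [F_uniform e he c k hk G, bal_gg e he c k'] at hk'
  have h1 := hu k'
  have h2 : ∑ i, c i * vec e G i ≤
      ∑ i, (c i * (vec e G i * s (e i) k) + |c i| * (1 - s (e i) k)) := by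
    apply Finset.sum_le_sum
    intro i _
    obtain ⟨h3, h4⟩ := vec_bounds e G i
    obtain ⟨h5, h6⟩ := s_le_one (e i) k (he i) (hk i)
    have h7 : c i * vec e G i - c i * (vec e G i * s (e i) k) =
        c i * (vec e G i * (1 - s (e i) k)) := by ring
    have h8 : c i * (vec e G i * (1 - s (e i) k)) ≤ |c i| * (vec e G i * (1 - s (e i) k)) :=
      mul_le_mul_of_nonneg_right (le_abs_self _) (mul_nonneg h3 (by linarith))
    have h9 : |c i| * (vec e G i * (1 - s (e i) k)) ≤ |c i| * (1 * (1 - s (e i) k)) :=
      mul_le_mul_of_nonneg_left (mul_le_mul_of_nonneg_right h4 (by linarith)) (abs_nonneg _)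
    linarith
  rw [Finset.sum_add_distrib] at h2
  linarith

/-- For 0<e_1<…<e_m, take the convex hull of the e_i-clique density vectors (cliques over binom(n,e_i)) of all n-vertex graphs, and intersect over n≥Σe_i. This equals the hull of the all-ones vector and the points (∏_{j<e_i}(1−j/k))_i for k≥1. -/
theorem result :
    ∀ (m : ℕ) (e : Fin m → ℕ), (∀ i, 0 < e i) → StrictMono e →
      (⋂ n : ℕ, convexHull ℝ
          { x : Fin m → ℝ | ∃ G : SimpleGraph (Fin (n + ∑ i, e i)),
              x = fun i => ((G.cliqueFinset (e i)).card : ℝ) /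
                ((Nat.choose (n + ∑ i, e i) (e i) : ℕ) : ℝ) })
        = convexHull ℝ (insert (1 : Fin m → ℝ)
            (Set.range fun k : ℕ => fun i : Fin m =>
              ∏ j ∈ Finset.Ico 1 (e i), (1 - (j : ℝ) / ((k : ℝ) + 1)))) := by
  intro m e he _
  have hle : ∀ (n : ℕ) (i : Fin m), e i ≤ n + ∑ i, e i := by
    intro n i
    have := Finset.single_le_sum (f := e) (fun j _ => Nat.zero_le _) (Finset.mem_univ i)
    omega
  apply Set.Subset.antisymm
  · intro x hx
    rw [Set.mem_iInter] at hx
    by_contra hxR
    have hcomp : IsCompact (insert (1 : Fin m → ℝ) (Set.range fun k : ℕ => fun i : Fin m =>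
        ∏ j ∈ Finset.Ico 1 (e i), (1 - (j : ℝ) / ((k : ℝ) + 1)))) := by
      apply Filter.Tendsto.isCompact_insert_range
      rw [tendsto_pi_nhds]
      intro i
      exact s_tendsto (e i)
    obtain ⟨f, u, hf1, hf2⟩ := geometric_hahn_banach_closed_point (convex_convexHull ℝ _)
      (isCompact_convexHull_of_isCompact hcomp).isClosed hxR
    set c : Fin m → ℝ := fun i => f (fun j => if i = j then 1 else 0) with hc
    have hfc : ∀ y : Fin m → ℝ, f y = ∑ i, c i * y i := by
      intro y
      have := LinearMap.pi_apply_eq_sum_univ (f : (Fin m → ℝ) →ₗ[ℝ] ℝ) y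
      simp only [ContinuousLinearMap.coe_coe, smul_eq_mul] at this
      rw [this]
      apply Finset.sum_congr rfl
      intro i _
      rw [hc]
      ring
    have hu : ∀ k : ℕ, ∑ i, c i * s (e i) k ≤ u := by
      intro k
      rw [← hfc (fun i => s (e i) k)]
      exact (hf1 _ (subset_convexHull ℝ _ (Set.mem_insert_of_mem _ ⟨k, rfl⟩))).le
    have hbound : ∀ t : ℕ, f x ≤ u + ∑ i, |c i| * (1 - s (e i) (t + ∑ i, e i)) := by
      intro t
      have hxt := hx (t + 1)
      have hsub : convexHull ℝ { x : Fin m → ℝ | ∃ G : SimpleGraph (Fin (t + 1 + ∑ i, e i)),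
              x = fun i => ((G.cliqueFinset (e i)).card : ℝ) /
                ((Nat.choose (t + 1 + ∑ i, e i) (e i) : ℕ) : ℝ) } ⊆
          {y | f y ≤ u + ∑ i, |c i| * (1 - s (e i) (t + ∑ i, e i))} := by
        apply convexHull_min
        · rintro y ⟨G, rfl⟩
          have hN : t + 1 + ∑ i, e i = (t + ∑ i, e i) + 1 := by ring
          have key : ∀ (N : ℕ) (hN : N = (t + ∑ i, e i) + 1) (G : SimpleGraph (Fin N)),
              f (vec e G) ≤ u + ∑ i, |c i| * (1 - s (e i) (t + ∑ i, e i)) := by
            intro N hN G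
            subst hN
            rw [hfc]
            apply functional_le e he c u hu _ _ G
            intro i
            have := hle t i
            omega
          exact key _ hN G
        · exact convex_halfSpace_le f.isLinear _
      exact hsub hxt
    have hlim : Filter.Tendsto (fun t : ℕ => u + ∑ i, |c i| * (1 - s (e i) (t + ∑ i, e i)))
        Filter.atTop (nhds (u + ∑ i, |c i| * (1 - 1))) := by
      apply Filter.Tendsto.const_add
      apply tendsto_finsetSum
      intro i _
      apply Filter.Tendsto.const_mul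
      apply Filter.Tendsto.const_sub
      exact (s_tendsto (e i)).comp (Filter.tendsto_add_atTop_nat _)
    have := ge_of_tendsto' hlim hbound
    simp only [sub_self, mul_zero, Finset.sum_const_zero, add_zero] at this
    linarith
  · apply Set.subset_iInter
    intro n
    apply convexHull_min _ (convex_convexHull ℝ _)
    intro x hx
    rcases hx with rfl | ⟨k, rfl⟩
    · exact one_mem e _ (hle n)
    · exact s_mem e he _ (hle n) k

end Pool.Agent.S10143
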